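import Mathlib

/-! Statement-level definitions: Davenport-Schinzel sequences and their maximum length. -/

namespace Pool.Agent.Work.MP_8a5de9_co_DS

/-- `l` is a `DS(n, s)` sequence: a finite sequence over `n` symbols with no two equal adjacent
terms and no alternating subsequence `a b a b ...` of length `s + 2` with `a ≠ b`. -/
def IsDS (n s : ℕ) (l : List (Fin n)) : Prop :=
  l.IsChain (· ≠ ·) ∧ ∀ a b : Fin n, a ≠ b →
    ¬ (List.ofFn fun k : Fin (s + 2) => if k.1 % 2 = 0 then a else b).Sublist l

/-- `lam s n` is the maximum length of a `DS(n, s)` sequence. -/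
noncomputable def lam (s n : ℕ) : ℕ := sSup {m | ∃ l, IsDS n s l ∧ l.length = m}

end Pool.Agent.Work.MP_8a5de9_co_DS
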