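import Pool.Agent.Work.MP_8a5de9_co_DS.Defs

/-! The classical lower bound for Davenport-Schinzel sequences of higher order
(Agarwal-Sharir-Shor; construction by composition and shuffling as in Pettie). -/

namespace Pool.Agent.Work.MP_8a5de9_co_DS

open Function

section Blocks

variable {S B J : Type}

/-- No alternation of length `L` in the blocked sequence `sym`. -/
def NoAlt [LinearOrder B] [LinearOrder J] (sym : B → J → S) (L : ℕ) : Prop :=
  ∀ (a b : S) (f : ℕ → B) (g : ℕ → J),
    (∀ k k', k < k' → k' < L → f k < f k' ∨ (f k = f k' ∧ g k < g k')) →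
    (∀ k, k < L → sym (f k) (g k) = if k % 2 = 0 then a else b) → a = b

/-- Two symbols with a common block form no pattern `a b a` on one side of that block. -/
def Side [LinearOrder B] (sym : B → J → S) : Prop :=
  ∀ x x1 x2 x3 p q p1 p2 p3, sym x p = sym x1 p1 → sym x p = sym x3 p3 → sym x q = sym x2 p2 →
    p ≠ q → x1 ≤ x2 → x2 ≤ x3 → x1 ≤ x ∧ x ≤ x3

theorem NoAlt.mono [LinearOrder B] [LinearOrder J] {sym : B → J → S} {L L' : ℕ}
    (h : NoAlt sym L) (hL : L ≤ L') : NoAlt sym L' := fun a b f g h1 h2 =>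
  h a b f g (fun k k' hk hk' => h1 k k' hk (by omega)) fun k hk => h2 k (by omega)

theorem lex_le {B K : Type} [LinearOrder B] [LinearOrder K] {x y : B ×ₗ K} (h : x ≤ y) :
    (ofLex x).1 ≤ (ofLex y).1 := by
  rcases Prod.Lex.le_iff.1 h with h | h
  · exact h.le
  · exact h.1.le

theorem lex_ext {B K : Type} {x y : B ×ₗ K} (h1 : (ofLex x).1 = (ofLex y).1)
    (h2 : (ofLex x).2 = (ofLex y).2) : x = y := ofLex.injective (Prod.ext h1 h2)

theorem lex_le2 {B K : Type} [LinearOrder B] [LinearOrder K] {x y : B ×ₗ K} (h : x ≤ y)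
    (h1 : (ofLex x).1 = (ofLex y).1) : (ofLex x).2 ≤ (ofLex y).2 := by
  rcases Prod.Lex.le_iff.1 h with h | h
  · exact absurd h1 h.ne
  · exact h.2

theorem seq_le [LinearOrder B] [LinearOrder J] {L : ℕ} {f : ℕ → B} {g : ℕ → J}
    (h : ∀ k k', k < k' → k' < L → f k < f k' ∨ (f k = f k' ∧ g k < g k')) {k k' : ℕ}
    (hk : k ≤ k') (hk' : k' < L) : f k ≤ f k' := by
  rcases hk.eq_or_lt with rfl | hk
  · exact le_rfl
  · rcases h k k' hk hk' with h | h
    · exact h.le
    · exact h.1.le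

/-- Composition: every block of `top` is replaced by a copy of `mid`. -/
def comp {B1 B2 N K : Type} (top : B1 → N → S) (mid : B2 → K → N) (x : B1 ×ₗ B2) (k : K) : S :=
  top (ofLex x).1 (mid (ofLex x).2 k)

theorem comp_noAlt {B1 B2 N K : Type} [LinearOrder B1] [LinearOrder B2] [LinearOrder N]
    [LinearOrder K] {top : B1 → N → S} {mid : B2 → K → N} {L : ℕ} (hL : L % 2 = 1)
    (hi : ∀ x, Injective (top x)) (ht : NoAlt top (L + 4)) (hq : Side top) (hm : NoAlt mid L) :
    NoAlt (comp top mid) (L + 4) := by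
  intro a b f g h1 h2
  by_contra hab
  have mono : ∀ {k k'}, k ≤ k' → k' < L + 4 → (ofLex (f k)).1 ≤ (ofLex (f k')).1 :=
    fun hk hk' => lex_le (seq_le h1 hk hk')
  simp only [comp] at h2
  by_cases hs : ∃ x p q, top x p = a ∧ top x q = b
  · obtain ⟨x, p, q, hp, hq'⟩ := hs
    have hpq : p ≠ q := by
      rintro rfl
      exact hab (hp.symm.trans hq')
    have e0 := h2 0 (by omega)
    have e1 := h2 1 (by omega)
    have e2 := h2 2 (by omega)
    have e3 := h2 (L + 1) (by omega)
    have e4 := h2 (L + 2) (by omega)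
    have e5 := h2 (L + 3) (by omega)
    rw [if_pos (by omega)] at e0 e2 e3 e5
    rw [if_neg (by omega)] at e1 e4
    have k1 := (hq x _ _ _ p q _ _ _ (hp.trans e0.symm) (hp.trans e2.symm) (hq'.trans e1.symm)
      hpq (mono (by omega) (by omega)) (mono (by omega) (by omega))).2
    have k2 := (hq x _ _ _ p q _ _ _ (hp.trans e3.symm) (hp.trans e5.symm) (hq'.trans e4.symm)
      hpq (mono (by omega) (by omega)) (mono (by omega) (by omega))).1
    have k3 : ∀ k, k < L → (ofLex (f (k + 2))).1 = x := fun k hk =>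
      le_antisymm ((mono (by omega) (by omega)).trans k2) (k1.trans (mono (by omega) (by omega)))
    refine hpq (hm p q (fun k => (ofLex (f (k + 2))).2) (fun k => g (k + 2)) ?_ ?_)
    · intro k k' hk hk'
      rcases h1 (k + 2) (k' + 2) (by omega) (by omega) with h | h
      · rcases Prod.Lex.lt_iff.1 h with h | h
        · rw [k3 k (by omega), k3 k' hk'] at h
          exact absurd h (lt_irrefl _)
        · exact Or.inl h.2
      · exact Or.inr ⟨by rw [h.1], h.2⟩
    · intro k hk
      have := h2 (k + 2) (by omega)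
      rw [k3 k hk, Nat.add_mod_right] at this
      apply hi x
      rw [this]
      split_ifs
      · exact hp.symm
      · exact hq'.symm
  · refine hab (ht a b (fun k => (ofLex (f k)).1) (fun k => mid (ofLex (f k)).2 (g k)) ?_ h2)
    intro k k' hk hk'
    left
    refine lt_of_lt_of_le (lt_of_le_of_ne (mono (Nat.le_succ k) (by omega)) fun he => hs ?_)
      (mono (k := k + 1) hk hk')
    have e1 := h2 k (by omega)
    have e2 := h2 (k + 1) (by omega)
    rw [← he] at e2
    by_cases hk2 : k % 2 = 0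
    · rw [if_pos hk2] at e1
      rw [if_neg (by omega)] at e2
      exact ⟨_, _, _, e1, e2⟩
    · rw [if_neg hk2] at e1
      rw [if_pos (by omega)] at e2
      exact ⟨_, _, _, e2, e1⟩

/-- Shuffle: every block of `sub` is spread over the blocks of a fresh copy of `bot`. -/
def shuf {K S0 : Type} {j : ℕ} (sub : B → K → S) (bot : K → Fin j → S0) (x : B ×ₗ K) :
    Fin (j + 1) → S ⊕ B × S0 :=
  Fin.cons (Sum.inl (sub (ofLex x).1 (ofLex x).2))
    fun p => Sum.inr ((ofLex x).1, bot (ofLex x).2 p)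

theorem shuf_inl {K S0 : Type} {j : ℕ} {sub : B → K → S} {bot : K → Fin j → S0} {x : B ×ₗ K}
    {p : Fin (j + 1)} {a : S} (h : shuf sub bot x p = Sum.inl a) :
    p = 0 ∧ sub (ofLex x).1 (ofLex x).2 = a := by
  induction p using Fin.cases with
  | zero => simpa [shuf] using h
  | succ p => simp [shuf] at h

theorem shuf_inr {K S0 : Type} {j : ℕ} {sub : B → K → S} {bot : K → Fin j → S0} {x : B ×ₗ K}
    {p : Fin (j + 1)} {y : B} {a : S0} (h : shuf sub bot x p = Sum.inr (y, a)) :
    (ofLex x).1 = y ∧ ∃ p' : Fin j, p = p'.succ ∧ bot (ofLex x).2 p' = a := by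
  induction p using Fin.cases with
  | zero => simp [shuf] at h
  | succ p =>
    have : (ofLex x).1 = y ∧ bot (ofLex x).2 p = a := by simpa [shuf] using h
    exact ⟨this.1, p, rfl, this.2⟩

theorem shuf_inj {K S0 : Type} {j : ℕ} {sub : B → K → S} {bot : K → Fin j → S0}
    (hb : ∀ x, Injective (bot x)) (x : B ×ₗ K) : Injective (shuf sub bot x) := by
  intro p q h
  rcases e : shuf sub bot x q with a | ⟨y, a⟩
  · rw [(shuf_inl (h.trans e)).1, (shuf_inl e).1]
  · obtain ⟨-, p', rfl, hp⟩ := shuf_inr (h.trans e)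
    obtain ⟨-, q', rfl, hq⟩ := shuf_inr e
    rw [hb _ (hp.trans hq.symm)]

theorem shuf_noAlt {K S0 : Type} {j : ℕ} [LinearOrder B] [LinearOrder K] {sub : B → K → S}
    {bot : K → Fin j → S0} {L : ℕ} (hL : 6 ≤ L) (hi : ∀ x, Injective (sub x))
    (hs : NoAlt sub L) (hb : NoAlt bot L) : NoAlt (shuf sub bot) L := by
  intro a b f g h1 h2
  have mono : ∀ {k k'}, k ≤ k' → k' < L → (ofLex (f k)).1 ≤ (ofLex (f k')).1 :=
    fun hk hk' => lex_le (seq_le h1 hk hk')
  have two : ∀ k c, k + 2 < L → (ofLex (f k)).1 = (ofLex (f (k + 2))).1 →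
      shuf sub bot (f k) (g k) = Sum.inl c → shuf sub bot (f (k + 2)) (g (k + 2)) = Sum.inl c →
      False := by
    intro k c hk e u v
    obtain ⟨u1, u2⟩ := shuf_inl u
    obtain ⟨v1, v2⟩ := shuf_inl v
    rw [← e] at v2
    have := lex_ext e (hi _ (u2.trans v2.symm))
    rcases h1 k (k + 2) (by omega) hk with h | h
    · exact h.ne this
    · rw [u1, v1] at h
      exact lt_irrefl _ h.2
  have e0 := h2 0 (by omega)
  have e1 := h2 1 (by omega)
  have e2 := h2 2 (by omega)
  have e3 := h2 3 (by omega)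
  have e4 := h2 4 (by omega)
  have e5 := h2 5 (by omega)
  rw [if_pos (by omega)] at e0 e2 e4
  rw [if_neg (by omega)] at e1 e3 e5
  have m01 := mono (k := 0) (k' := 1) (by omega) (by omega)
  have m12 := mono (k := 1) (k' := 2) (by omega) (by omega)
  have m23 := mono (k := 2) (k' := 3) (by omega) (by omega)
  have m34 := mono (k := 3) (k' := 4) (by omega) (by omega)
  have m45 := mono (k := 4) (k' := 5) (by omega) (by omega)
  rcases a with a | ⟨y, a⟩ <;> rcases b with b | ⟨z, b⟩
  · have hk : ∀ k, k < L → g k = 0 ∧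
        sub (ofLex (f k)).1 (ofLex (f k)).2 = if k % 2 = 0 then a else b := by
      intro k hk
      have := h2 k hk
      split_ifs at this ⊢ <;> exact shuf_inl this
    congr 1
    refine hs a b (fun k => (ofLex (f k)).1) (fun k => (ofLex (f k)).2) ?_ fun k h => (hk k h).2
    intro k k' h h'
    rcases h1 k k' h h' with h3 | h3
    · exact Prod.Lex.lt_iff.1 h3
    · rw [(hk k (by omega)).1, (hk k' h').1] at h3
      exact absurd h3.2 (lt_irrefl _)
  · have u1 := (shuf_inr e1).1
    have u3 := (shuf_inr e3).1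
    have u5 := (shuf_inr e5).1
    refine (two 2 a (by omega) ?_ e2 e4).elim
    rw [u1] at m12
    rw [u3] at m23 m34
    rw [u5] at m45
    exact (le_antisymm m23 m12).trans (le_antisymm m34 m45)
  · have u0 := (shuf_inr e0).1
    have u2 := (shuf_inr e2).1
    have u4 := (shuf_inr e4).1
    refine (two 1 b (by omega) ?_ e1 e3).elim
    rw [u0] at m01
    rw [u2] at m12 m23
    rw [u4] at m34
    exact (le_antisymm m12 m01).trans (le_antisymm m23 m34)
  · have u0 := (shuf_inr e0).1
    have u1 := (shuf_inr e1).1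
    have u2 := (shuf_inr e2).1
    rw [u0, u1] at m01
    rw [u1, u2] at m12
    obtain rfl : y = z := le_antisymm m01 m12
    have hk : ∀ k, k < L → ∃ p' : Fin j, (ofLex (f k)).1 = y ∧ g k = p'.succ ∧
        bot (ofLex (f k)).2 p' = if k % 2 = 0 then a else b := by
      intro k hk
      have := h2 k hk
      split_ifs at this ⊢ <;>
      · obtain ⟨r1, p', r2, r3⟩ := shuf_inr this
        exact ⟨p', r1, r2, r3⟩
    have : Nonempty (Fin j) := ⟨(hk 0 (by omega)).choose⟩
    choose! g' hg using hk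
    congr 2
    refine hb a b (fun k => (ofLex (f k)).2) g' ?_ fun k h => (hg k h).2.2
    intro k k' h h'
    obtain ⟨r1, r2, -⟩ := hg k (by omega)
    obtain ⟨s1, s2, -⟩ := hg k' h'
    rcases h1 k k' h h' with h3 | h3
    · rcases Prod.Lex.lt_iff.1 h3 with h3 | h3
      · rw [r1, s1] at h3
        exact absurd h3 (lt_irrefl _)
      · exact Or.inl h3.2
    · rw [r2, s2, Fin.succ_lt_succ_iff] at h3
      exact Or.inr ⟨by rw [h3.1], h3.2⟩

theorem shuf_side {K S0 : Type} {j : ℕ} [LinearOrder B] [LinearOrder K] {sub : B → K → S}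
    {bot : K → Fin j → S0} (hi : ∀ x, Injective (sub x)) (hb : Side bot) :
    Side (shuf sub bot) := by
  intro x x1 x2 x3 p q p1 p2 p3 e1 e3 e2 hpq l12 l23
  have m12 := lex_le l12
  have m23 := lex_le l23
  rcases ea : shuf sub bot x p with a | ⟨y, a⟩ <;> rcases eb : shuf sub bot x q with b | ⟨z, b⟩
  · exact absurd ((shuf_inl ea).1.trans (shuf_inl eb).1.symm) hpq
  · have u := (shuf_inl ea).2
    have u1 := (shuf_inl (e1.symm.trans ea)).2
    have u3 := (shuf_inl (e3.symm.trans ea)).2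
    have v := (shuf_inr eb).1
    have v2 := (shuf_inr (e2.symm.trans eb)).1
    constructor
    · by_contra h
      have h' := (not_le.1 h).le
      have e : (ofLex x).1 = (ofLex x1).1 := le_antisymm (lex_le h') (by rw [v, ← v2]; exact m12)
      rw [← e] at u1
      exact h (lex_ext e (hi _ (u.trans u1.symm))).ge
    · by_contra h
      have h' := (not_le.1 h).le
      have e : (ofLex x).1 = (ofLex x3).1 := le_antisymm (by rw [v, ← v2]; exact m23) (lex_le h')
      rw [← e] at u3
      exact h (lex_ext e (hi _ (u.trans u3.symm))).le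
  · have u := (shuf_inr ea).1
    have u1 := (shuf_inr (e1.symm.trans ea)).1
    have u3 := (shuf_inr (e3.symm.trans ea)).1
    have v := (shuf_inl eb).2
    have v2 := (shuf_inl (e2.symm.trans eb)).2
    have e : (ofLex x).1 = (ofLex x2).1 :=
      le_antisymm (by rw [u, ← u1]; exact m12) (by rw [u, ← u3]; exact m23)
    rw [← e] at v2
    obtain rfl := lex_ext e (hi _ (v.trans v2.symm))
    exact ⟨l12, l23⟩
  · obtain ⟨u, p', rfl, w⟩ := shuf_inr ea
    obtain ⟨u1, p1', -, w1⟩ := shuf_inr (e1.symm.trans ea)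
    obtain ⟨u3, p3', -, w3⟩ := shuf_inr (e3.symm.trans ea)
    obtain ⟨v, q', rfl, r⟩ := shuf_inr eb
    obtain ⟨v2, p2', -, r2⟩ := shuf_inr (e2.symm.trans eb)
    have t2 : (ofLex x2).1 = y := v2.trans (v.symm.trans u)
    obtain ⟨c1, c2⟩ := hb _ _ _ _ p' q' p1' p2' p3' (w.trans w1.symm) (w.trans w3.symm)
      (r.trans r2.symm) (fun h => hpq (by rw [h])) (lex_le2 l12 (u1.trans t2.symm))
      (lex_le2 l23 (t2.trans u3.symm))
    exact ⟨Prod.Lex.le_iff.2 (Or.inr ⟨u1.trans u.symm, c1⟩),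
      Prod.Lex.le_iff.2 (Or.inr ⟨u.trans u3.symm, c2⟩)⟩

/-- Reindexing blocks and symbols by initial segments of the naturals. -/
theorem reindex [LinearOrder B] [LinearOrder J] [Fintype B] [Fintype S] (sym : B → J → S) :
    ∃ sym' : Fin (Fintype.card B) → J → Fin (Fintype.card S),
      ((∀ x, Injective (sym x)) → ∀ x, Injective (sym' x)) ∧
      (∀ L, NoAlt sym L → NoAlt sym' L) ∧ (Side sym → Side sym') := by
  let e := Fintype.orderIsoFinOfCardEq B rfl
  let σ := Fintype.equivFin S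
  refine ⟨fun x p => σ (sym (e x) p), fun h x => σ.injective.comp (h _), ?_, ?_⟩
  · intro L h a b f g h1 h2
    apply σ.symm.injective
    refine h _ _ (fun k => e (f k)) g ?_ ?_
    · intro k k' hk hk'
      rcases h1 k k' hk hk' with h3 | h3
      · exact Or.inl (e.strictMono h3)
      · exact Or.inr ⟨by rw [h3.1], h3.2⟩
    · intro k hk
      have := h2 k hk
      split_ifs at this ⊢ <;> exact σ.eq_symm_apply.2 this
  · intro h x x1 x2 x3 p q p1 p2 p3 e1 e3 e2 hpq l12 l23
    have := h (e x) (e x1) (e x2) (e x3) p q p1 p2 p3 (σ.injective e1) (σ.injective e3)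
      (σ.injective e2) hpq (e.monotone l12) (e.monotone l23)
    exact ⟨e.le_iff_le.1 this.1, e.le_iff_le.1 this.2⟩

end Blocks

theorem ack_sq (m z : ℕ) : 2 * (z * z) ≤ ack (m + 3) z := by
  have h := ack_mono_left z (show 3 ≤ m + 3 by omega)
  simp only [ack_three] at h
  refine le_trans ?_ h
  have : ∀ z : ℕ, 2 * (z * z) + 3 ≤ 2 ^ (z + 3) := by
    intro z
    induction z with
    | zero => norm_num
    | succ z ih =>
      have e1 : 2 ^ (z + 1 + 3) = 16 * 2 ^ z := by ring
      have e2 : 2 ^ (z + 3) = 8 * 2 ^ z := by ring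
      have : z < 2 ^ z := Nat.lt_two_pow_self
      rw [e1]
      rw [e2] at ih
      nlinarith
  have := this z
  omega

theorem ack_four (m z : ℕ) : 8 * (z * z * z * z) ≤ ack (m + 3) (ack (m + 3) z) := by
  have h1 := ack_sq m z
  have h2 := ack_sq m (ack (m + 3) z)
  calc 8 * (z * z * z * z) = 2 * (2 * (z * z) * (2 * (z * z))) := by ring
    _ ≤ 2 * (ack (m + 3) z * ack (m + 3) z) := by gcongr
    _ ≤ _ := h2

theorem size_step (m j K B1 B2 N : ℕ) (hK : K ≤ ack (m + 3 + 1) (8 * j))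
    (h2 : B2 ≤ ack (m + 3) (8 * K)) (hN : N ≤ B2 * K) (h1 : B1 ≤ ack (m + 3) (8 * N)) :
    B1 * B2 * K ≤ ack (m + 3 + 1) (8 * (j + 1)) := by
  have p4 : ∀ z : ℕ, z ≤ z * z * z * z ∧ z * z ≤ z * z * z * z ∧ z * z * z ≤ z * z * z * z := by
    intro z
    rcases Nat.eq_zero_or_pos z with rfl | hz
    · simp
    · have a1 : z ≤ z * z := Nat.le_mul_of_pos_right _ hz
      have a2 : z * z ≤ z * z * z := Nat.le_mul_of_pos_right _ hz
      have a3 : z * z * z ≤ z * z * z * z := Nat.le_mul_of_pos_right _ hz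
      omega
  set Y := ack (m + 3 + 1) (8 * j) with hY
  have e : ack (m + 3 + 1) (8 * (j + 1)) = ack (m + 3) (ack (m + 3) (ack (m + 3) (ack (m + 3)
      (ack (m + 3) (ack (m + 3) (ack (m + 3) (ack (m + 3) Y))))))) := by
    rw [show 8 * (j + 1) = 8 * j + 1 + 1 + 1 + 1 + 1 + 1 + 1 + 1 by ring]
    simp only [ack_succ_succ (m + 3), hY]
  rw [e]
  have a1 := ack_four m Y
  have b1 := (p4 Y).1
  set Z1 := ack (m + 3) (ack (m + 3) Y)
  have c2 : B2 ≤ ack (m + 3) Z1 := h2.trans (ack_mono_right _ (by omega))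
  have d2 := lt_ack_right (m + 3) Z1
  set Z2 := ack (m + 3) Z1
  have a3 := ack_four m Z2
  have b3 := (p4 Z2).2.1
  have c3 : N ≤ Z2 * Z2 := hN.trans (Nat.mul_le_mul c2 (by omega))
  have d3 := (p4 Z2).1
  set Z3 := ack (m + 3) (ack (m + 3) Z2)
  have c4 : B1 ≤ ack (m + 3) Z3 := h1.trans (ack_mono_right _ (by omega))
  have d4 := lt_ack_right (m + 3) Z3
  set Z4 := ack (m + 3) Z3
  have a5 := ack_four m Z4
  have b5 := (p4 Z4).2.2
  have c5 : B1 * B2 * K ≤ Z4 * Z4 * Z4 :=
    Nat.mul_le_mul (Nat.mul_le_mul c4 (by omega)) (by omega)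
  omega

/-- The blocked sequences of Agarwal-Sharir-Shor type. -/
theorem exists_blocks (t i j : ℕ) : ∃ (nB nS : ℕ) (sym : Fin nB → Fin j → Fin nS),
    (∀ x, Injective (sym x)) ∧ NoAlt sym (4 * t + 5) ∧ (t ≠ 0 → Side sym) ∧ 1 ≤ nB ∧
    nB ≤ ack (i + t + 3) (8 * j) ∧ 2 ^ Nat.multichoose i t * nS ≤ nB * j := by
  induction t generalizing i j with
  | zero =>
    refine ⟨2, j, fun _ p => p, fun _ => injective_id, ?_, fun h => absurd rfl h, by omega, ?_,
      by simp⟩
    · intro a b f g h1 h2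
      have e0 : g 0 = a := h2 0 (by omega)
      have e2 : g 2 = a := h2 2 (by omega)
      have e4 : g 4 = a := h2 4 (by omega)
      have l02 := h1 0 2 (by omega) (by omega)
      have l24 := h1 2 4 (by omega) (by omega)
      rw [e0, e2] at l02
      rw [e2, e4] at l24
      simp only [lt_irrefl, and_false, or_false] at l02 l24
      have := (f 4).2
      rw [Fin.lt_def] at l02 l24
      omega
    · have := add_lt_ack (i + 0 + 3) (8 * j)
      omega
  | succ t iht =>
    induction i generalizing j with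
    | zero =>
      refine ⟨1, j, fun _ p => p, fun _ => injective_id, ?_, ?_, le_rfl, ack_pos _ _, by simp⟩
      · intro a b f g h1 h2
        have e0 : g 0 = a := h2 0 (by omega)
        have e2 : g 2 = a := h2 2 (by omega)
        have l02 := h1 0 2 (by omega) (by omega)
        rw [e0, e2, Subsingleton.elim (f 0) (f 2)] at l02
        simp at l02
      · intro _ x x1 x2 x3 _ _ _ _ _ _ _ _ _ _ _
        exact ⟨(Subsingleton.elim _ _).le, (Subsingleton.elim _ _).le⟩
    | succ i ihi =>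
      induction j with
      | zero =>
        refine ⟨1, 0, fun _ p => p, fun _ => injective_id, fun a => a.elim0, ?_, le_rfl,
          ack_pos _ _, by simp⟩
        intro _ x x1 x2 x3 p
        exact p.elim0
      | succ j ihj =>
        obtain ⟨K, S0, bot, bi, ba, bs, b1, b2, b3⟩ := ihj
        obtain ⟨B2, N, mid, mi, ma, -, m1, m2, m3⟩ := iht (i + 1) K
        obtain ⟨B1, S1, top, ti, ta, ts, t1, t2, t3⟩ := ihi N
        have ci : ∀ x, Injective (comp top mid x) := fun x => (ti _).comp (mi _)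
        have ca : NoAlt (comp top mid) (4 * (t + 1) + 5) :=
          comp_noAlt (L := 4 * t + 5) (by omega) ti ta (ts (by omega)) ma
        obtain ⟨sym, r1, r2, r3⟩ := reindex (shuf (comp top mid) bot)
        have cB : Fintype.card ((Fin B1 ×ₗ Fin B2) ×ₗ Fin K) = B1 * B2 * K := by simp
        have cS : Fintype.card (Fin S1 ⊕ (Fin B1 ×ₗ Fin B2) × Fin S0) = S1 + B1 * B2 * S0 := by
          simp
        refine ⟨_, _, sym, r1 (shuf_inj bi), r2 _ (shuf_noAlt (by omega) ci ca ba),
          fun h => r3 (shuf_side ci (bs h)), ?_, ?_, ?_⟩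
        · rw [cB]
          exact Nat.mul_pos (Nat.mul_pos t1 m1) b1
        · rw [cB, show i + 1 + (t + 1) + 3 = (i + t + 1) + 3 + 1 by ring]
          refine size_step _ j K B1 B2 N ?_ ?_ ?_ ?_
          · rwa [show i + 1 + (t + 1) + 3 = (i + t + 1) + 3 + 1 by ring] at b2
          · rwa [show i + 1 + t + 3 = (i + t + 1) + 3 by ring] at m2
          · exact (Nat.le_mul_of_pos_left _ (Nat.two_pow_pos _)).trans m3
          · rwa [show i + (t + 1) + 3 = (i + t + 1) + 3 by ring] at t2
        · rw [cB, cS]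
          rw [Nat.multichoose_succ_succ, pow_add] at b3 ⊢
          set u := 2 ^ Nat.multichoose i (t + 1)
          set v := 2 ^ Nat.multichoose (i + 1) t
          calc u * v * (S1 + B1 * B2 * S0) = v * (u * S1) + B1 * B2 * (u * v * S0) := by ring
            _ ≤ v * (B1 * N) + B1 * B2 * (K * j) := by gcongr
            _ = B1 * (v * N) + B1 * B2 * (K * j) := by ring
            _ ≤ B1 * (B2 * K) + B1 * B2 * (K * j) := by gcongr
            _ = _ := by ring

theorem bdd (n s : ℕ) : BddAbove {m | ∃ l, IsDS n s l ∧ l.length = m} := by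
  refine ⟨n * n * (s + 1) + 1, ?_⟩
  rintro m ⟨l, ⟨h1, h2⟩, rfl⟩
  by_contra hm
  rw [List.isChain_iff_getElem] at h1
  obtain ⟨M, hM⟩ : ∃ M, l.length = M + 1 := ⟨l.length - 1, by omega⟩
  let F : Fin M → Fin n × Fin n := fun k => (l[k.1]'(by omega), l[k.1 + 1]'(by omega))
  obtain ⟨⟨a, b⟩, hy⟩ := Fintype.exists_lt_card_fiber_of_mul_lt_card (f := F) (n := s + 1)
    (by simp only [Fintype.card_prod, Fintype.card_fin]; omega)
  let P := (Finset.univ.filter fun x => F x = (a, b)).orderEmbOfCardLe (k := s + 2) hy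
  have hP : ∀ k, F (P k) = (a, b) := fun k =>
    (Finset.mem_filter.1 (Finset.orderEmbOfCardLe_mem _ hy k)).2
  have ha : ∀ k, l[(P k).1]'(by omega) = a := fun k => congrArg Prod.fst (hP k)
  have hb : ∀ k, l[(P k).1 + 1]'(by omega) = b := fun k => congrArg Prod.snd (hP k)
  have hab : a ≠ b := fun h => h1 _ _ ((ha 0).trans (h.trans (hb 0).symm))
  refine h2 a b hab (List.sublist_iff_exists_fin_orderEmbedding_get_eq.2 ?_)
  let G : Fin (s + 2) → Fin l.length := fun k =>
    if k.1 % 2 = 0 then ⟨(P k).1, by omega⟩ else ⟨(P k).1 + 1, by omega⟩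
  have hG : ∀ k, l.get (G k) = if k.1 % 2 = 0 then a else b := by
    intro k
    simp only [G]
    split_ifs
    · exact ha k
    · exact hb k
  have hG1 : ∀ k, (P k).1 ≤ (G k).1 ∧ (G k).1 ≤ (P k).1 + 1 := by
    intro k
    simp only [G]
    split_ifs <;> simp
  have hS : StrictMono G := by
    rw [Fin.strictMono_iff_lt_succ]
    intro k
    have l1 : (P k.castSucc).1 < (P k.succ).1 := P.strictMono Fin.castSucc_lt_succ
    have l2 := hG1 k.castSucc
    have l3 := hG1 k.succ
    refine lt_of_le_of_ne (by rw [Fin.le_def]; omega) fun he => hab ?_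
    have u := hG k.castSucc
    have v := hG k.succ
    rw [he, v] at u
    simp only [Fin.val_succ, Fin.val_castSucc] at u
    split_ifs at u <;> omega
  refine ⟨(Fin.castOrderIso List.length_ofFn).toOrderEmbedding.trans
    (OrderEmbedding.ofStrictMono G hS), fun ix => ?_⟩
  rw [List.get_ofFn]
  exact (hG _).symm

theorem le_lam_of_blocks {N nS n s : ℕ} (sym : Fin N → Fin 2 → Fin nS) (hn : nS ≤ n)
    (hi : ∀ x, Injective (sym x)) (ha : NoAlt sym (s + 2)) : N ≤ lam s n := by
  rcases Nat.eq_zero_or_pos N with rfl | hN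
  · exact Nat.zero_le _
  let u : ℕ → Fin 2 → Fin nS := fun k => sym ⟨k % N, Nat.mod_lt _ hN⟩
  let g : ℕ → Fin 2 := fun k => Nat.rec 0 (fun k p => if u (k + 1) 0 = u k p then 1 else 0) k
  have hg : ∀ k, u k (g k) ≠ u (k + 1) (g (k + 1)) := by
    intro k
    have e : g (k + 1) = if u (k + 1) 0 = u k (g k) then 1 else 0 := rfl
    rw [e]
    split_ifs with h
    · rw [← h]
      exact fun h' => absurd (hi _ h') (by decide)
    · exact Ne.symm h
  refine le_csSup (bdd n s) ⟨List.ofFn fun k : Fin N => Fin.castLE hn (u k (g k)), ⟨?_, ?_⟩,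
    List.length_ofFn⟩
  · rw [List.isChain_iff_getElem]
    intro k hk
    simp only [List.getElem_ofFn]
    exact fun h => hg k (Fin.castLE_injective hn h)
  · intro a b hab h
    obtain ⟨f, hf⟩ := List.sublist_iff_exists_orderEmbedding_getElem?_eq.1 h
    have hf' : ∀ k, k < s + 2 → f k < N ∧
        Fin.castLE hn (u (f k) (g (f k))) = if k % 2 = 0 then a else b := by
      intro k hk
      have := hf k
      rw [List.getElem?_ofFn, List.getElem?_ofFn, dif_pos hk] at this
      by_cases h' : f k < N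
      · rw [dif_pos h'] at this
        exact ⟨h', (Option.some.inj this).symm⟩
      · rw [dif_neg h'] at this
        exact absurd this (by simp)
    have e0 := (hf' 0 (by omega)).2
    have e1 := (hf' 1 (by omega)).2
    rw [if_pos (by omega)] at e0
    rw [if_neg (by omega)] at e1
    refine hab ?_
    rw [← e0, ← e1]
    congr 1
    refine ha _ _ (fun k => ⟨f k % N, Nat.mod_lt _ hN⟩) (fun k => g (f k)) ?_ ?_
    · intro k k' hk hk'
      left
      rw [Fin.lt_def]
      simp only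
      rw [Nat.mod_eq_of_lt (hf' k (by omega)).1, Nat.mod_eq_of_lt (hf' k' hk').1]
      exact f.strictMono hk
    · intro k hk
      apply Fin.castLE_injective hn
      have := (hf' k hk).2
      split_ifs at this ⊢
      · rw [e0]
        exact this
      · rw [e1]
        exact this

theorem mul_le_lam {N nS n s : ℕ} (r : ℕ) (sym : Fin N → Fin 2 → Fin nS) (hn : r * nS ≤ n)
    (hs : 1 ≤ s) (hi : ∀ x, Injective (sym x)) (ha : NoAlt sym (s + 2)) : r * N ≤ lam s n := by
  let w : Fin r ×ₗ Fin N → Fin 2 → Fin r × Fin nS :=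
    fun x p => ((ofLex x).1, sym (ofLex x).2 p)
  obtain ⟨w', r1, r2, -⟩ := reindex w
  have cB : Fintype.card (Fin r ×ₗ Fin N) = r * N := by simp
  have cS : Fintype.card (Fin r × Fin nS) = r * nS := by simp
  rw [← cB]
  refine le_lam_of_blocks w' (by rwa [cS]) (r1 fun x p q h => hi _ (congrArg Prod.snd h))
    (r2 _ ?_)
  rintro ⟨y, a⟩ ⟨z, b⟩ f g h1 h2
  have e0 := h2 0 (by omega)
  have e1 := h2 1 (by omega)
  have e2 := h2 2 (by omega)
  rw [if_pos (by omega)] at e0 e2
  rw [if_neg (by omega)] at e1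
  have m01 := lex_le (seq_le h1 (k := 0) (k' := 1) (by omega) (by omega))
  have m12 := lex_le (seq_le h1 (k := 1) (k' := 2) (by omega) (by omega))
  have u0 : (ofLex (f 0)).1 = y := congrArg Prod.fst e0
  have u1 : (ofLex (f 1)).1 = z := congrArg Prod.fst e1
  have u2 : (ofLex (f 2)).1 = y := congrArg Prod.fst e2
  rw [u0, u1] at m01
  rw [u1, u2] at m12
  obtain rfl : y = z := le_antisymm m01 m12
  have hk : ∀ k, k < s + 2 → (ofLex (f k)).1 = y ∧
      sym (ofLex (f k)).2 (g k) = if k % 2 = 0 then a else b := by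
    intro k hk
    have := h2 k hk
    split_ifs at this ⊢ <;> exact ⟨congrArg Prod.fst this, congrArg Prod.snd this⟩
  congr 1
  refine ha a b (fun k => (ofLex (f k)).2) g ?_ fun k h => (hk k h).2
  intro k k' h h'
  rcases h1 k k' h h' with h3 | h3
  · rcases Prod.Lex.lt_iff.1 h3 with h3 | h3
    · rw [(hk k (by omega)).1, (hk k' h').1] at h3
      exact absurd h3 (lt_irrefl _)
    · exact Or.inl h3.2
  · exact Or.inr ⟨by rw [h3.1], h3.2⟩

theorem le_lam (s n : ℕ) (hs : 1 ≤ s) : n ≤ lam s n := by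
  refine le_csSup (bdd n s) ⟨List.ofFn id, ⟨?_, ?_⟩, List.length_ofFn⟩
  · rw [List.isChain_iff_getElem]
    intro k hk
    simp only [List.getElem_ofFn, id]
    intro h
    have := congrArg Fin.val h
    simp at this
  · intro a b _ h
    have h1 : (List.ofFn (id : Fin n → Fin n)).Nodup := List.nodup_ofFn.2 injective_id
    have h2 := List.nodup_ofFn.1 (h1.sublist h)
    have := @h2 ⟨0, by omega⟩ ⟨2, by omega⟩ (by simp)
    simp at this

theorem pow_le_multichoose (c D i : ℕ) (h1 : D ≤ i) (h2 : 2 ^ c * (c + 1).factorial ≤ i) :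
    (i + D) ^ c ≤ Nat.multichoose i (c + 1) := by
  have a1 := Nat.pow_succ_le_ascFactorial i (c + 1)
  rw [Nat.ascFactorial_eq_factorial_mul_choose', ← Nat.multichoose_eq] at a1
  refine Nat.le_of_mul_le_mul_left (le_trans ?_ a1) (Nat.factorial_pos (c + 1))
  calc (c + 1).factorial * (i + D) ^ c ≤ (c + 1).factorial * (2 * i) ^ c := by
        gcongr
        omega
    _ = i ^ c * (2 ^ c * (c + 1).factorial) := by
        rw [mul_pow]
        ring
    _ ≤ i ^ c * i := by gcongr
    _ = _ := by ring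

/-- `n 2^((α(n) + 2)^c) = O(λ_s(n))` for a suitable `s`. -/
theorem exists_le_lam (c : ℕ) : ∃ s C : ℕ, 1 ≤ s ∧ ∀ n : ℕ,
    n * 2 ^ (sInf {k | n ≤ ack k k} + 2) ^ c ≤ C * lam s n := by
  set i0 := 2 ^ c * (c + 1).factorial + c + 20 with hi0
  refine ⟨4 * (c + 1) + 3, 2 ^ (i0 + c + 7) ^ c + 4, by omega, fun n => ?_⟩
  set k := sInf {k | n ≤ ack k k} with hk
  by_cases hs : k ≤ i0 + c + 5
  · calc n * 2 ^ (k + 2) ^ c ≤ lam (4 * (c + 1) + 3) n * 2 ^ (i0 + c + 7) ^ c :=
          Nat.mul_le_mul (le_lam _ _ (by omega))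
            (Nat.pow_le_pow_right two_pos (Nat.pow_le_pow_left (by omega) _))
      _ ≤ _ := by
          rw [mul_comm]
          exact Nat.mul_le_mul_right _ (Nat.le_add_right _ _)
  · obtain ⟨i, hi⟩ : ∃ i, k = i + c + 5 := ⟨k - c - 5, by omega⟩
    have hlt : ack (i + c + 4) (i + c + 4) < n :=
      not_le.1 (Nat.notMem_of_lt_sInf (s := {k | n ≤ ack k k}) (by omega))
    obtain ⟨N, nS, sym, r1, r2, -, r3, r4, r5⟩ := exists_blocks (c + 1) i 2
    have a1 : ack (i + c + 3 + 1) (16 + 1) ≤ ack (i + c + 4) (i + c + 4) :=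
      ack_le_ack le_rfl (by omega)
    rw [ack_succ_succ] at a1
    have a2 := ack_sq (i + c) (ack (i + c + 3 + 1) 16)
    rw [show i + (c + 1) + 3 = i + c + 3 + 1 by ring] at r4
    set Z := ack (i + c + 3 + 1) 16
    have a3 : Z ≤ Z * Z := Nat.le_mul_self Z
    have a4 : nS ≤ N * 2 := (Nat.le_mul_of_pos_left _ (Nat.two_pow_pos _)).trans r5
    have a5 : nS ≤ n := by omega
    have a6 : 0 < nS := Fin.pos (sym ⟨0, r3⟩ 0)
    have b1 := mul_le_lam (s := 4 * (c + 1) + 3) (n := n) (n / nS) sym (Nat.div_mul_le_self _ _)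
      (by omega) r1 r2
    have b2 : n ≤ 2 * (n / nS * nS) := by
      have u1 := Nat.div_add_mod n nS
      have u2 := Nat.mod_lt n a6
      have u3 : 1 ≤ n / nS := (Nat.one_le_div_iff a6).2 a5
      have u4 : nS ≤ n / nS * nS := Nat.le_mul_of_pos_left _ u3
      rw [mul_comm] at u1
      omega
    have b3 : (k + 2) ^ c ≤ Nat.multichoose i (c + 1) := by
      rw [hi, show i + c + 5 + 2 = i + (c + 7) by ring]
      exact pow_le_multichoose c (c + 7) i (by omega) (by omega)
    calc n * 2 ^ (k + 2) ^ c ≤ 2 * (n / nS * nS) * 2 ^ Nat.multichoose i (c + 1) := by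
          gcongr
          norm_num
      _ = 2 * (n / nS) * (2 ^ Nat.multichoose i (c + 1) * nS) := by ring
      _ ≤ 2 * (n / nS) * (N * 2) := by gcongr
      _ = 4 * (n / nS * N) := by ring
      _ ≤ 4 * lam (4 * (c + 1) + 3) n := by gcongr
      _ ≤ _ := Nat.mul_le_mul_right _ (Nat.le_add_left _ _)

/-- A bound `C (n+1)^(d-1) 2^(e (α(n)+2)^c)` is `O(n^(d-2) λ_s(n))` for a suitable `s`. -/
theorem bridge (d c e C : ℕ) (hd : 2 ≤ d) : ∃ s C' : ℕ, 1 ≤ s ∧ ∀ n : ℕ, 1 ≤ n →
    C * (n + 1) ^ (d - 1) * 2 ^ (e * (sInf {k | n ≤ ack k k} + 2) ^ c) ≤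
      C' * (n ^ (d - 2) * lam s n) := by
  obtain ⟨s, C0, hs, h⟩ := exists_le_lam (e + c)
  obtain ⟨d, rfl⟩ : ∃ d', d = d' + 2 := ⟨d - 2, by omega⟩
  refine ⟨s, C * 2 ^ (d + 1) * C0, hs, fun n hn => ?_⟩
  have h1 := h n
  set k := sInf {k | n ≤ ack k k}
  have h2 : e * (k + 2) ^ c ≤ (k + 2) ^ (e + c) := by
    rw [pow_add]
    exact Nat.mul_le_mul_right _
      (Nat.lt_two_pow_self.le.trans (Nat.pow_le_pow_left (by omega) _))
  have h3 : (n + 1) ^ (d + 1) ≤ 2 ^ (d + 1) * n ^ d * n := by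
    rw [mul_assoc, ← pow_succ, ← mul_pow]
    exact Nat.pow_le_pow_left (by omega) _
  calc C * (n + 1) ^ (d + 1) * 2 ^ (e * (k + 2) ^ c)
      ≤ C * (2 ^ (d + 1) * n ^ d * n) * 2 ^ (k + 2) ^ (e + c) :=
        Nat.mul_le_mul (Nat.mul_le_mul_left _ h3) (Nat.pow_le_pow_right two_pos h2)
    _ = C * 2 ^ (d + 1) * n ^ d * (n * 2 ^ (k + 2) ^ (e + c)) := by ring
    _ ≤ C * 2 ^ (d + 1) * n ^ d * (C0 * lam s n) := Nat.mul_le_mul_left _ h1
    _ = C * 2 ^ (d + 1) * C0 * (n ^ d * lam s n) := by ring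

end Pool.Agent.Work.MP_8a5de9_co_DS
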